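import Pool.Agent.Helper98.MG.BddA
import Pool.Agent.Helper33.MG.BddC

/-!
# Block A, module 3: suprema of countable sets, branches, boundedness (collected)
-/
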