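import Pool.Agent.Helper95.MG.Sig

/-!
# Block A: aliases with the names of the interface; the join of two reals
-/

set_option autoImplicit false

namespace Pool.Agent.Helper48.MG

variable {M : Type} [ZFM M]
variable {α β γ δ : Type} [Cl M α] [Cl M β] [Cl M γ] [Cl M δ]

/-- the constant real -/
noncomputable def cst (n : N M) : Re M := lam (fun _ => n) (by fun_prop)

@[fun_prop] theorem IF.cst {f : α → N M} (hf : IF M f) : IF M (fun x => cst (f x)) := by
  unfold MG.cst; fun_prop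

theorem exists_jn2 : ∃ j : Re M → Re M → Re M, IF M (fun q : Re M × Re M => j q.1 q.2) ∧
    (∀ x y, sec (j x y) 0 = x ∧ ∀ i, i ≠ 0 → sec (j x y) i = y) ∧
    ∀ x y m, (∀ i n, m ≠ pr i n) → j x y m = 0 := by
  classical
  let P : (Re M × Re M) × N M → N M → Prop := fun q k =>
    (∃ n, q.2 = pr 0 n ∧ q.1.1 n = k) ∨ (∃ i n, i ≠ 0 ∧ q.2 = pr i n ∧ q.1.2 n = k) ∨
      ((¬ ∃ i n, q.2 = pr i n) ∧ k = 0)
  have hP : IF M (fun r : ((Re M × Re M) × N M) × N M => P r.1 r.2) := by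
    show IF M (fun r : ((Re M × Re M) × N M) × N M =>
      (∃ n, r.1.2 = pr 0 n ∧ r.1.1.1 n = r.2) ∨ (∃ i n, i ≠ 0 ∧ r.1.2 = pr i n ∧ r.1.1.2 n = r.2) ∨
      ((¬ ∃ i n, r.1.2 = pr i n) ∧ r.2 = 0))
    fun_prop
  obtain ⟨f, hf, hf'⟩ := exists_of_unique (p := P) hP (fun q => by
    obtain ⟨⟨x, y⟩, m⟩ := q
    by_cases h : ∃ i n, m = pr i n
    · obtain ⟨i, n, rfl⟩ := h
      by_cases hi : i = 0
      · subst hi
        refine ⟨x n, Or.inl ⟨n, rfl, rfl⟩, ?_⟩
        rintro k (⟨n', h, h'⟩ | ⟨i, n', hi, h, h'⟩ | ⟨h, _⟩)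
        · obtain ⟨_, h2⟩ := pr_inj h
          rw [h2]; exact h'.symm
        · obtain ⟨h1, h2⟩ := pr_inj h
          exact (hi h1.symm).elim
        · exact (h ⟨0, n, rfl⟩).elim
      · refine ⟨y n, Or.inr (Or.inl ⟨i, n, hi, rfl, rfl⟩), ?_⟩
        rintro k (⟨n', h, h'⟩ | ⟨i, n', hi, h, h'⟩ | ⟨h, _⟩)
        · obtain ⟨h1, h2⟩ := pr_inj h
          exact (hi h1).elim
        · obtain ⟨h1, h2⟩ := pr_inj h
          rw [h2]; exact h'.symm
        · exact (h ⟨i, n, rfl⟩).elim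
    · refine ⟨0, Or.inr (Or.inr ⟨h, rfl⟩), ?_⟩
      rintro k (⟨n', h', _⟩ | ⟨i, n', _, h', _⟩ | ⟨_, h'⟩)
      · exact (h ⟨0, n', h'⟩).elim
      · exact (h ⟨i, n', h'⟩).elim
      · exact h')
  refine ⟨fun x y => lam (fun m => f ((x, y), m)) (hf.comp (by fun_prop)), ?_, ?_, ?_⟩
  · refine IF.lam ?_
    exact hf.comp (g := fun q : (Re M × Re M) × N M => ((q.1.1, q.1.2), q.2)) (by fun_prop)
  · intro x y
    refine ⟨IFun.ext fun n => ?_, fun i hi => IFun.ext fun n => ?_⟩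
    · show f ((x, y), pr 0 n) = x n
      rcases hf' ((x, y), pr 0 n) with ⟨n', h, h'⟩ | ⟨i, n', hi, h, h'⟩ | ⟨h, _⟩
      · obtain ⟨_, h2⟩ := pr_inj h
        exact h'.symm.trans (congrArg x.toFun h2.symm)
      · obtain ⟨h1, h2⟩ := pr_inj h
        exact (hi h1.symm).elim
      · exact (h ⟨0, n, rfl⟩).elim
    · show f ((x, y), pr i n) = y n
      rcases hf' ((x, y), pr i n) with ⟨n', h, h'⟩ | ⟨i, n', hi, h, h'⟩ | ⟨h, _⟩
      · obtain ⟨h1, h2⟩ := pr_inj h
        exact (hi h1).elim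
      · obtain ⟨h1, h2⟩ := pr_inj h
        exact h'.symm.trans (congrArg y.toFun h2.symm)
      · exact (h ⟨i, n, rfl⟩).elim
  · intro x y m h
    show f ((x, y), m) = 0
    rcases hf' ((x, y), m) with ⟨n', h', _⟩ | ⟨i, n', _, h', _⟩ | ⟨_, h'⟩
    · exact (h _ _ h').elim
    · exact (h _ _ h').elim
    · exact h'

/-- the join of two reals -/
noncomputable def jn (x y : Re M) : Re M := Classical.choose (exists_jn2 (M := M)) x y

@[fun_prop] theorem IF.jn {f g : α → Re M} (hf : IF M f) (hg : IF M g) :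
    IF M (fun x => jn (f x) (g x)) :=
  (Classical.choose_spec (exists_jn2 (M := M))).1.comp (hf.prodMk hg)

@[simp] theorem sec_jn_zero (x y : Re M) : sec (jn x y) 0 = x :=
  ((Classical.choose_spec (exists_jn2 (M := M))).2.1 x y).1
theorem sec_jn_ne (x y : Re M) {i : N M} (hi : i ≠ 0) : sec (jn x y) i = y :=
  ((Classical.choose_spec (exists_jn2 (M := M))).2.1 x y).2 i hi
@[simp] theorem sec_jn_one (x y : Re M) : sec (jn x y) (sc 0) = y := sec_jn_ne x y (N.sc_ne_zero 0)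
theorem jn_ne (x y : Re M) {m : N M} (h : ∀ i n, m ≠ pr i n) : (jn x y).toFun m = 0 :=
  (Classical.choose_spec (exists_jn2 (M := M))).2.2 x y m h


variable [Tp M α] [Tp M β] [Tp M γ] [Tp M δ]

/-- the two points agree up to `n` -/
abbrev Agr (M : Type) [ZFM M] {α : Type} [Cl M α] [Tp M α] (n : N M) (a b : α) : Prop := agr n a b

theorem Ct.ofN {f : N M → β} (hf : IF M f) : Ct M f := Ct.dsc hf
theorem Ct.ofN2 {f : N M × N M → β} (hf : IF M f) : Ct M f := Ct.dsc hf
theorem Ct.eqN {f g : α → N M} (hf : Ct M f) (hg : Ct M g) : Ct M (fun a => f a = g a) :=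
  Ct.eq hf hg
theorem Ct.ltN {f g : α → N M} (hf : Ct M f) (hg : Ct M g) : Ct M (fun a => f a < g a) :=
  Ct.lt hf hg
theorem Ct.leN {f g : α → N M} (hf : Ct M f) (hg : Ct M g) : Ct M (fun a => f a ≤ g a) :=
  Ct.le hf hg

@[fun_prop] theorem Ct.cst {f : α → N M} (hf : Ct M f) : Ct M (fun a => cst (f a)) := by
  unfold MG.cst; fun_prop

theorem jn_cases (x y : Re M) (m : N M) : (jn x y) m = if pr (u1 m) (u2 m) = m then
    (if u1 m = 0 then x (u2 m) else y (u2 m)) else 0 := by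
  by_cases h : pr (u1 m) (u2 m) = m
  · rw [if_pos h]
    by_cases h0 : u1 m = 0
    · rw [if_pos h0]
      have e : sec (jn x y) 0 = x := sec_jn_zero x y
      have e1 := congrArg (fun r : Re M => r (u2 m)) e
      simp only [sec_apply] at e1
      rw [← e1, ← h0, h]
    · rw [if_neg h0]
      have e : sec (jn x y) (u1 m) = y := sec_jn_ne x y h0
      have e1 := congrArg (fun r : Re M => r (u2 m)) e
      simp only [sec_apply] at e1
      rw [← e1, h]
  · rw [if_neg h]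
    refine jn_ne x y fun i n hin => h ?_
    rw [hin]
    simp

@[fun_prop] theorem Ct.jn {f g : α → Re M} (hf : Ct M f) (hg : Ct M g) :
    Ct M (fun a => jn (f a) (g a)) := by
  have h1 : ∀ a, MG.jn (f a) (g a) = MG.lam (fun m : N M => if MG.pr (MG.u1 m) (MG.u2 m) = m then
      (if MG.u1 m = 0 then (f a) (MG.u2 m) else (g a) (MG.u2 m)) else 0) (by fun_prop) :=
    fun a => IFun.ext fun m => jn_cases _ _ m
  have h2 : Ct M (fun a => (MG.lam (fun m : N M => if MG.pr (MG.u1 m) (MG.u2 m) = m then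
      (if MG.u1 m = 0 then (f a) (MG.u2 m) else (g a) (MG.u2 m)) else 0) (by fun_prop) : Re M)) := by
    fun_prop
  have h3 : (fun a => MG.jn (f a) (g a)) = fun a => (MG.lam (fun m : N M =>
      if MG.pr (MG.u1 m) (MG.u2 m) = m then
      (if MG.u1 m = 0 then (f a) (MG.u2 m) else (g a) (MG.u2 m)) else 0) (by fun_prop) : Re M) := funext h1
  rw [h3]
  exact h2

theorem Sig.of_ct {p : α → Prop} (hp : Ct M p) : Sig M p := Sig.ct hp
theorem Sig.isIF {p : α → Prop} (hp : Sig M p) : IF M p := hp.iff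
theorem Sig.imp {p q : α → Prop} (hp : Ct M p) (hq : Sig M q) : Sig M (fun a => p a → q a) :=
  Sig.imp_ct hp hq
theorem Sig.exN {p : α → N M → Prop} (hp : Sig M (fun q : α × N M => p q.1 q.2)) :
    Sig M (fun a => ∃ n, p a n) := Sig.ex hp
/-- nonuniform countable intersections and unions (`AC_ω(ℝ)`) -/
theorem Sig.all_nat [AD M] {p : α → N M → Prop} (hp : ∀ n, Sig M (fun a => p a n))
    (hp' : IF M (fun q : α × N M => p q.1 q.2)) : Sig M (fun a => ∀ n, p a n) :=
  Sig.iInter (P := fun n a => p a n)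
    (hp'.comp (g := fun q : N M × α => (q.2, q.1)) (by fun_prop)) hp
theorem Sig.ex_nat [AD M] {p : α → N M → Prop} (hp : ∀ n, Sig M (fun a => p a n))
    (hp' : IF M (fun q : α × N M => p q.1 q.2)) : Sig M (fun a => ∃ n, p a n) :=
  Sig.iUnion (P := fun n a => p a n)
    (hp'.comp (g := fun q : N M × α => (q.2, q.1)) (by fun_prop)) hp

end Pool.Agent.Helper48.MG
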