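import Pool.Agent.Helper95.MG.Bdd
import Pool.Agent.Helper48.MG.Defs2

/-!
# Block A, module 4: domination, choice of countably many functions, the filter `Ev`
-/

set_option autoImplicit false

namespace Pool.Agent.Helper48.MG

variable {M : Type} [ZFM M]
variable {α β γ δ : Type} [Cl M α] [Cl M β] [Cl M γ] [Cl M δ]

/-- `y`, as a strategy of the second player, preserves `WF` -/
def Dom (y : Re M) : Prop := ∀ r : Re M, WF r → WF (ap2 y r)

@[fun_prop] theorem IF.Dom {f : α → Re M} (hf : IF M f) : IF M (fun x => Dom (f x)) := by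
  unfold MG.Dom; fun_prop

/-- the domination function of `y` -/
noncomputable def th (y : Re M) : Fn M :=
  lam (fun d => lst M (fun b : W M => ∀ r : Re M, WF r → nrm r ≤ d → nrm (ap2 y r) ≤ b)) (by fun_prop)

@[fun_prop] theorem IF.th {f : α → Re M} (hf : IF M f) : IF M (fun x => th (f x)) := by
  unfold MG.th; fun_prop

variable [AD M]

theorem Dom.bound {y : Re M} (hy : Dom y) (d : W M) :
    ∃ b, ∀ r, WF r → nrm r ≤ d → nrm (ap2 y r) ≤ b := by
  obtain ⟨b, hb⟩ := bdd (P := fun r : Re M => WF r ∧ nrm r ≤ d) (f := fun r => ap2 y r)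
    (sig_wf_le d) (by fun_prop) (fun r h => hy r h.1)
  exact ⟨b, fun r h1 h2 => hb r ⟨h1, h2⟩⟩

theorem Dom.le_th {y : Re M} (hy : Dom y) {r : Re M} {d : W M} (hr : WF r) (hd : nrm r ≤ d) :
    nrm (ap2 y r) ≤ th y d :=
  lst_spec (M := M) (P := fun b => ∀ r, WF r → nrm r ≤ d → nrm (ap2 y r) ≤ b) (by fun_prop)
    (hy.bound d) r hr hd

theorem Dom.th_mono {y : Re M} (hy : Dom y) {d e : W M} (h : d ≤ e) : th y d ≤ th y e :=
  lst_le (M := M) (P := fun b => ∀ r, WF r → nrm r ≤ d → nrm (ap2 y r) ≤ b) (by fun_prop)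
    fun _ hr hd => hy.le_th hr (hd.trans h)

/-- every function is dominated by a real -/
theorem dom (f : Fn M) : ∃ y : Re M, Dom y ∧ ∀ r, WF r → f (nrm r) ≤ nrm (ap2 y r) := by
  rcases AD.det (M := M) (lam (fun p : Re M × Re M => WF p.1 ∧
      ¬ (WF p.2 ∧ f (nrm p.1) ≤ nrm p.2)) (by fun_prop)) with ⟨σ, hσ⟩ | ⟨τ, hτ⟩
  · exfalso
    have hσ' : ∀ y, WF (ap1 σ y) ∧ ¬ (WF y ∧ f (nrm (ap1 σ y)) ≤ nrm y) := hσ
    obtain ⟨b, hb⟩ := bdd (P := fun _ : Re M => True) (f := fun y => ap1 σ y)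
      (Sig.ct (Ct.const _)) (by fun_prop) (fun y _ => (hσ' y).1)
    obtain ⟨c, hc⟩ := W_below f b
    obtain ⟨r, hr⟩ := exists_PWc c
    refine (hσ' r).2 ⟨hr.wf, ?_⟩
    rw [hr.nrm]
    exact (hc _ (hb r trivial)).le
  · have hτ' : ∀ r, ¬ (WF r ∧ ¬ (WF (ap2 τ r) ∧ f (nrm r) ≤ nrm (ap2 τ r))) := hτ
    refine ⟨τ, fun r hr => ?_, fun r hr => ?_⟩
    · by_contra h
      exact hτ' r ⟨hr, fun h' => h h'.1⟩
    · by_contra h
      exact hτ' r ⟨hr, fun h' => h h'.2⟩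

theorem exists_th (f : Fn M) : ∃ y : Re M, Dom y ∧ ∀ d, f d ≤ th y d := by
  obtain ⟨y, hy, hf⟩ := dom f
  refine ⟨y, hy, fun b => ?_⟩
  obtain ⟨r, hr⟩ := exists_PWc b
  have h1 := hf r hr.wf
  have h2 := hy.le_th hr.wf hr.nrm.le
  rw [hr.nrm] at h1
  exact h1.trans h2

/-- countable choice of functions `ω_1 → ω_1`, for upward closed conditions -/
theorem exists_fn_seq (A : IFun M (N M × Fn M) Prop)
    (hup : ∀ n (f g : Fn M), A (n, f) → (∀ b, f b ≤ g b) → A (n, g)) (h : ∀ n, ∃ f, A (n, f)) :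
    ∃ f, ∀ n, A (n, f) := by
  obtain ⟨Y, hY⟩ := acw' (M := M) (A := fun n y => Dom y ∧ A (n, th y))
    (by fun_prop) (fun n => by
      obtain ⟨f, hf⟩ := h n
      obtain ⟨y, hy, hfy⟩ := exists_th f
      exact ⟨y, hy, hup n f _ hf hfy⟩)
  refine ⟨lam (fun d => lst M (fun b => ∀ n, th (Y n) d ≤ b)) (by fun_prop), fun n => ?_⟩
  refine hup n _ _ (hY n).2 fun d => ?_
  have h1 := lst_spec (M := M) (P := fun b => ∀ n, th (Y n) d ≤ b) (by fun_prop) (by
    obtain ⟨b, hb⟩ := W_seq (lam (fun n => th (Y n) d) (by fun_prop))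
    exact ⟨b, fun n => (hb n).le⟩)
  exact h1 n

/-- choice of countably many functions, for upwards closed conditions -/
theorem exists_fn {A : N M → Fn M → Prop} (hA : IF M (fun q : N M × Fn M => A q.1 q.2))
    (hup : ∀ n f g, A n f → (∀ a, f a ≤ g a) → A n g) (h : ∀ n, ∃ f, A n f) :
    ∃ f, ∀ n, A n f := exists_fn_seq ⟨_, hA⟩ hup h

omit [AD M] in
theorem Ev_Cp (f : Fn M) : Ev (Cp f) := ⟨f, fun _ h => h⟩

theorem Ev.all_nat {Q : N M → W M → Prop} (hQ : IF M (fun q : N M × W M => Q q.1 q.2))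
    (h : ∀ n, Ev (Q n)) : Ev (fun a => ∀ n, Q n a) := by
  obtain ⟨f, hf⟩ := exists_fn (A := fun n f => ∀ a, Cp f a → Q n a) (by
    have h1 : IF M (fun q : (N M × Fn M) × W M => Q q.1.1 q.2) :=
      hQ.comp (g := fun q : (N M × Fn M) × W M => (q.1.1, q.2)) (by fun_prop)
    fun_prop) (fun n f g h hfg a ha => h a (ha.of_le hfg)) h
  exact ⟨f, fun a ha n => hf n a ha⟩

theorem Ev.all_below {Q : W M → W M → Prop} (hQ : IF M (fun q : W M × W M => Q q.1 q.2))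
    (b : W M) (h : ∀ c, c ≤ b → Ev (Q c)) : Ev (fun a => ∀ c, c ≤ b → Q c a) := by
  obtain ⟨f, hf⟩ := exists_cov_W b
  have h1 : IF M (fun q : N M × W M => Q (f q.1) q.2) :=
    hQ.comp (g := fun q : N M × W M => (f q.1, q.2)) (by fun_prop)
  have h2 := Ev.all_nat (Q := fun n a => f n ≤ b → Q (f n) a) (by fun_prop) (fun n => by
    by_cases hn : f n ≤ b
    · exact (h _ hn).mono fun a ha _ => ha
    · exact ⟨lam (fun a => a) (by fun_prop), fun a _ h' => (hn h').elim⟩)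
  refine h2.mono fun a ha c hc => ?_
  obtain ⟨n, rfl⟩ := hf c hc
  exact ha n hc

/-- closure points are unbounded -/
theorem exists_Cp_gt (f : Fn M) (b : W M) : ∃ a, b < a ∧ Cp f a := by
  have hg : ∀ c, ∃ d, (∀ e, e ≤ c → f e < d) ∧ c < d := fun c => by
    obtain ⟨d, hd⟩ := W_below f c
    obtain ⟨e, he⟩ := W.no_max (max c d)
    exact ⟨e, fun x hx => (hd x hx).trans (lt_of_le_of_lt (le_max_right _ _) he),
      lt_of_le_of_lt (le_max_left _ _) he⟩
  obtain ⟨s, hs, s0, ss⟩ := N.exists_rec (M := M) (γ := Unit) (β := W M) (fun _ => sW b)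
    (fun _ _ c => lst M (fun d => (∀ e, e ≤ c → f e < d) ∧ c < d)) (by fun_prop) (by fun_prop)
  have hs' : IF M (fun n : N M => s () n) := hs.comp (g := fun n : N M => ((), n)) (by fun_prop)
  have hspec : ∀ n, (∀ e, e ≤ s () n → f e < s () (sc n)) ∧ s () n < s () (sc n) := fun n => by
    rw [ss]
    exact lst_spec (M := M) (P := fun d => (∀ e, e ≤ s () n → f e < d) ∧ s () n < d) (by fun_prop)
      (hg _)
  have hex : ∃ a, ∀ n, s () n ≤ a := by
    obtain ⟨a, ha⟩ := W_seq ⟨_, hs'⟩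
    exact ⟨a, fun n => (ha n).le⟩
  have h1 := lst_spec (M := M) (P := fun a => ∀ n, s () n ≤ a) (by fun_prop) hex
  refine ⟨lst M (fun a => ∀ n, s () n ≤ a), ?_, ?_, ?_⟩
  · refine lt_of_lt_of_le (lt_sW_self b) ?_
    rw [← s0 ()]
    exact h1 0
  · refine ⟨b, lt_of_lt_of_le (lt_sW_self b) ?_⟩
    rw [← s0 ()]
    exact h1 0
  · intro c hc
    have h2 := not_of_lt_lst (M := M) (P := fun a => ∀ n, s () n ≤ a) (by fun_prop) hc
    push Not at h2
    obtain ⟨n, hn⟩ := h2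
    exact lt_of_lt_of_le ((hspec n).1 c hn.le) (h1 (sc n))

/-- club sets are unbounded -/
theorem Ev.exists_gt {Q : W M → Prop} (h : Ev Q) (b : W M) : ∃ a, b < a ∧ Q a := by
  obtain ⟨f, hf⟩ := h
  obtain ⟨a, ha, ha'⟩ := exists_Cp_gt f b
  exact ⟨a, ha, hf a ha'⟩

theorem Ev.not_false : ¬ Ev (fun _ : W M => False) := fun h => by
  obtain ⟨_, _, h⟩ := h.exists_gt (w0 M)
  exact h

omit [AD M] in
theorem Ev_gt (b : W M) : Ev (fun a => b < a) :=
  ⟨lam (fun _ => b) (by fun_prop), fun _ ha => by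
    obtain ⟨⟨c, hc⟩, h⟩ := ha
    exact h c hc⟩

theorem Ev_Clo : Ev (Clo : W M → Prop) := by
  have h1 : ∀ d, ∃ b : W M, (∀ c c', c ≤ d → c' ≤ d → pw c c' < b) ∧ sW d < b ∧ w0 M < b := by
    intro d
    have h2 : ∀ c : W M, ∃ b, ∀ c', c' ≤ d → pw c c' < b := fun c =>
      W_below (lam (fun c' => pw c c') (by fun_prop)) d
    obtain ⟨b, hb⟩ := W_below (lam (fun c : W M => lst M (fun b => ∀ c', c' ≤ d → pw c c' < b)) (by fun_prop)) d
    obtain ⟨e, he⟩ := W.no_max (max b (max (sW d) (w0 M)))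
    refine ⟨e, fun c c' hc hc' => ?_, ?_, ?_⟩
    · have h3 := lst_spec (M := M) (P := fun b => ∀ c', c' ≤ d → pw c c' < b) (by fun_prop) (h2 c)
      exact ((h3 c' hc').trans (hb c hc)).trans (lt_of_le_of_lt (le_max_left _ _) he)
    · exact lt_of_le_of_lt ((le_max_left _ _).trans (le_max_right _ _)) he
    · exact lt_of_le_of_lt ((le_max_right _ _).trans (le_max_right _ _)) he
  refine ⟨lam (fun d => lst M (fun b : W M =>
    (∀ c c', c ≤ d → c' ≤ d → pw c c' < b) ∧ sW d < b ∧ w0 M < b)) (by fun_prop), fun g hg => ?_⟩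
  have h2 : ∀ d, d < g → ∃ b, b < g ∧
      ((∀ c c', c ≤ d → c' ≤ d → pw c c' < b) ∧ sW d < b ∧ w0 M < b) := fun d hd =>
    ⟨_, hg.2 d hd, lst_spec (M := M) (P := fun b : W M =>
      (∀ c c', c ≤ d → c' ≤ d → pw c c' < b) ∧ sW d < b ∧ w0 M < b) (by fun_prop) (h1 d)⟩
  obtain ⟨c, hc⟩ := hg.1
  refine ⟨?_, fun b hb => ?_, fun b c hb hc => ?_⟩
  · obtain ⟨b, hb, h3⟩ := h2 c hc
    exact h3.2.2.trans hb
  · obtain ⟨d, hd, h3⟩ := h2 b hb
    exact h3.2.1.trans hd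
  · obtain ⟨d, hd, h3⟩ := h2 (max b c) (max_lt hb hc)
    exact (h3.1 b c (le_max_left _ _) (le_max_right _ _)).trans hd

end Pool.Agent.Helper48.MG
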