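import Pool.Agent.Helper95.MG.Dom

/-!
# Block A, module 5: the club dichotomy
-/

set_option autoImplicit false

namespace Pool.Agent.Helper48.MG

variable {M : Type} [ZFM M] [AD M]

/-- reals whose sections have given norms -/
theorem exists_cofinal {a d : W M} (h : d < a) : ∃ x : Re M, (∀ n, WF (sec x n) ∧
    nrm (sec x n) < a) ∧ (∀ c, c < a → ∃ n, nrm (sec x n) = c) ∧ nrm (sec x 0) = d := by
  classical
  obtain ⟨f, hf⟩ := exists_cov_W a
  obtain ⟨g, hg, g0, gs⟩ := N.exists_rec (M := M) (γ := Unit) (β := W M) (fun _ => d)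
    (fun _ n _ => if f n < a then f n else d) (by fun_prop) (by fun_prop)
  have hg' : IF M (fun n : N M => g () n) := hg.comp (g := fun n : N M => ((), n)) (by fun_prop)
  have hlt : ∀ n, g () n < a := by
    intro n
    rcases N.zero_or_sc n with rfl | ⟨m, rfl⟩
    · rw [g0]; exact h
    · rw [gs]
      split_ifs with h1
      · exact h1
      · exact h
  obtain ⟨Y, hY⟩ := acw' (M := M) (A := fun n y => PWc y (g () n)) (by fun_prop)
    (fun n => exists_PWc _)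
  obtain ⟨x, hx⟩ := exists_join Y
  refine ⟨x, fun n => ?_, fun c hc => ?_, ?_⟩
  · rw [hx]
    exact ⟨(hY n).wf, by rw [(hY n).nrm]; exact hlt n⟩
  · obtain ⟨n, hn⟩ := hf c hc.le
    refine ⟨sc n, ?_⟩
    rw [hx, (hY _).nrm, gs, hn, if_pos hc]
  · rw [hx, (hY 0).nrm, g0]

/-- the strict supremum of the norms of the sections -/
noncomputable def ssup (x y : Re M) : W M :=
  lst M (fun a => ∀ n, nrm (sec x n) < a ∧ nrm (sec y n) < a)

omit [AD M] in
@[fun_prop] theorem IF.ssup {α : Type} [Cl M α] {f g : α → Re M} (hf : IF M f) (hg : IF M g) :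
    IF M (fun x => ssup (f x) (g x)) := by
  unfold MG.ssup; fun_prop

omit [AD M] in
theorem ssup_eq {x y : Re M} {a : W M} (h : ∀ n, nrm (sec x n) < a ∧ nrm (sec y n) < a)
    (h' : ∀ c, c < a → ∃ n, nrm (sec x n) = c ∨ nrm (sec y n) = c) : ssup x y = a := by
  refine le_antisymm (lst_le (M := M)
    (P := fun a => ∀ n, nrm (sec x n) < a ∧ nrm (sec y n) < a) (by fun_prop) h) ?_
  by_contra hlt
  rw [not_le] at hlt
  have h1 := lst_spec (M := M) (P := fun a => ∀ n, nrm (sec x n) < a ∧ nrm (sec y n) < a)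
    (by fun_prop) ⟨a, h⟩
  obtain ⟨n, hn | hn⟩ := h' _ hlt
  · exact lt_irrefl _ (hn ▸ (h1 n).1)
  · exact lt_irrefl _ (hn ▸ (h1 n).2)

/-- the club dichotomy -/
theorem SM' (R : IFun M (W M × W M) Prop) (hm : ∀ d d' a, d ≤ d' → R (d, a) → R (d', a)) :
    (∃ d, Ev (fun a => R (d, a))) ∨ Ev (fun a => ∀ d, d < a → ¬ R (d, a)) := by
  rcases AD.det (M := M) (lam (fun p : Re M × Re M =>
      (∃ n, ¬ WF (sec p.2 n) ∧ (∀ i, i ≤ n → WF (sec p.1 i)) ∧ ∀ i, i < n → WF (sec p.2 i)) ∨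
      ((∀ n, WF (sec p.1 n) ∧ WF (sec p.2 n)) ∧ R (nrm (sec p.1 0), ssup p.1 p.2))) (by fun_prop))
      with ⟨σ, hσ⟩ | ⟨τ, hτ⟩
  · left
    have hσ' : ∀ y, (∃ n, ¬ WF (sec y n) ∧ (∀ i, i ≤ n → WF (sec (ap1 σ y) i)) ∧
        ∀ i, i < n → WF (sec y i)) ∨ ((∀ n, WF (sec (ap1 σ y) n) ∧ WF (sec y n)) ∧
          R (nrm (sec (ap1 σ y) 0), ssup (ap1 σ y) y)) := hσ
    -- the sections of the first player are wellfounded as long as those of the second are
    have hw : ∀ y n, (∀ i, i < n → WF (sec y i)) → WF (sec (ap1 σ y) n) := by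
      intro y
      by_contra hcon
      push Not at hcon
      obtain ⟨n, ⟨hn1, hn2⟩, hmin⟩ := IWO.least (M := M)
        (fun n : N M => (∀ i, i < n → WF (sec y i)) ∧ ¬ WF (sec (ap1 σ y) n)) (by fun_prop) hcon
      rcases hσ' y with ⟨m, h1, h2, h3⟩ | ⟨h1, _⟩
      · have h4 : n ≤ m := by
          by_contra h
          exact h1 (hn1 m (not_le.1 h))
        exact hn2 (h2 n h4)
      · exact hn2 (h1 n).1
    -- bounds
    have hb : ∀ d (n : N M), ∃ b : W M, ∀ y : Re M, (∀ i, i < n → WF (sec y i) ∧ nrm (sec y i) ≤ d) →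
        nrm (sec (ap1 σ y) n) ≤ b := by
      intro d n
      refine bdd (P := fun y : Re M => ∀ i, i < n → WF (sec y i) ∧ nrm (sec y i) ≤ d)
        (f := fun y => sec (ap1 σ y) n) ?_ (by fun_prop) (fun y hy => hw y n fun i hi => (hy i hi).1)
      exact Sig.ball (P := fun i (y : Re M) => WF (sec y i) ∧ nrm (sec y i) ≤ d) (by fun_prop) n
        fun k _ => (sig_wf_le d).comp (f := fun y : Re M => sec y k) (by fun_prop)
    have hb' : ∀ d, ∃ b : W M, ∀ (n : N M) (y : Re M),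
        (∀ i, i < n → WF (sec y i) ∧ nrm (sec y i) ≤ d) → nrm (sec (ap1 σ y) n) < b := by
      intro d
      obtain ⟨b, hb1⟩ := W_seq (lam (fun n : N M => lst M (fun b : W M => ∀ y : Re M,
        (∀ i, i < n → WF (sec y i) ∧ nrm (sec y i) ≤ d) → nrm (sec (ap1 σ y) n) ≤ b)) (by fun_prop))
      refine ⟨b, fun n y hy => lt_of_le_of_lt ?_ (hb1 n)⟩
      exact lst_spec (M := M) (P := fun b : W M => ∀ y : Re M,
        (∀ i, i < n → WF (sec y i) ∧ nrm (sec y i) ≤ d) → nrm (sec (ap1 σ y) n) ≤ b)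
        (by fun_prop) (hb d n) y hy
    let F : Fn M := lam (fun d => lst M (fun b : W M => ∀ (n : N M) (y : Re M),
        (∀ i, i < n → WF (sec y i) ∧ nrm (sec y i) ≤ d) → nrm (sec (ap1 σ y) n) < b)) (by fun_prop)
    have hF : ∀ d (n : N M) (y : Re M),
        (∀ i, i < n → WF (sec y i) ∧ nrm (sec y i) ≤ d) → nrm (sec (ap1 σ y) n) < F d :=
      fun d => lst_spec (M := M) (P := fun b : W M => ∀ (n : N M) (y : Re M),
        (∀ i, i < n → WF (sec y i) ∧ nrm (sec y i) ≤ d) → nrm (sec (ap1 σ y) n) < b)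
        (by fun_prop) (hb' d)
    refine ⟨F (w0 M), F, fun a ha => ?_⟩
    obtain ⟨c, hc⟩ := ha.1
    obtain ⟨y, hy1, hy2, _⟩ := exists_cofinal hc
    have hx1 : ∀ n, WF (sec (ap1 σ y) n) := fun n => hw y n fun i _ => (hy1 i).1
    have hx2 : ∀ n, nrm (sec (ap1 σ y) n) < a := by
      intro n
      obtain ⟨d, hd, hd'⟩ := W.exists_max (f := fun i => nrm (sec y i)) (by fun_prop) ha.1 n
        fun k _ => (hy1 k).2
      exact (hF d n y fun i hi => ⟨(hy1 i).1, hd' i hi⟩).trans (ha.2 d hd)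
    have hs : ssup (ap1 σ y) y = a := ssup_eq (fun n => ⟨hx2 n, (hy1 n).2⟩) fun c hc => by
      obtain ⟨n, hn⟩ := hy2 c hc
      exact ⟨n, Or.inr hn⟩
    rcases hσ' y with ⟨m, h1, _, _⟩ | ⟨_, h1⟩
    · exact (h1 (hy1 m).1).elim
    · rw [hs] at h1
      refine hm _ _ a ?_ h1
      exact (hF (w0 M) 0 y fun i hi => (N.not_lt_zero i hi).elim).le
  · right
    have hτ' : ∀ x, ¬ ((∃ n, ¬ WF (sec (ap2 τ x) n) ∧ (∀ i, i ≤ n → WF (sec x i)) ∧
        ∀ i, i < n → WF (sec (ap2 τ x) i)) ∨ ((∀ n, WF (sec x n) ∧ WF (sec (ap2 τ x) n)) ∧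
          R (nrm (sec x 0), ssup x (ap2 τ x)))) := hτ
    have hw : ∀ x n, (∀ i, i ≤ n → WF (sec x i)) → WF (sec (ap2 τ x) n) := by
      intro x
      by_contra hcon
      push Not at hcon
      obtain ⟨n, ⟨hn1, hn2⟩, hmin⟩ := IWO.least (M := M)
        (fun n : N M => (∀ i, i ≤ n → WF (sec x i)) ∧ ¬ WF (sec (ap2 τ x) n)) (by fun_prop) hcon
      refine hτ' x (Or.inl ⟨n, hn2, hn1, fun i hi => ?_⟩)
      by_contra h
      exact not_le.2 hi (hmin i ⟨fun j hj => hn1 j (hj.trans hi.le), h⟩)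
    have hb : ∀ d (n : N M), ∃ b : W M, ∀ x : Re M, (∀ i, i < sc n → WF (sec x i) ∧ nrm (sec x i) ≤ d) →
        nrm (sec (ap2 τ x) n) ≤ b := by
      intro d n
      refine bdd (P := fun x : Re M => ∀ i, i < sc n → WF (sec x i) ∧ nrm (sec x i) ≤ d)
        (f := fun x => sec (ap2 τ x) n) ?_ (by fun_prop)
        (fun x hx => hw x n fun i hi => (hx i (N.lt_sc.2 hi)).1)
      exact Sig.ball (P := fun i (x : Re M) => WF (sec x i) ∧ nrm (sec x i) ≤ d) (by fun_prop) (sc n)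
        fun k _ => (sig_wf_le d).comp (f := fun x : Re M => sec x k) (by fun_prop)
    have hb' : ∀ d, ∃ b : W M, ∀ (n : N M) (x : Re M),
        (∀ i, i < sc n → WF (sec x i) ∧ nrm (sec x i) ≤ d) → nrm (sec (ap2 τ x) n) < b := by
      intro d
      obtain ⟨b, hb1⟩ := W_seq (lam (fun n : N M => lst M (fun b : W M => ∀ x : Re M,
        (∀ i, i < sc n → WF (sec x i) ∧ nrm (sec x i) ≤ d) → nrm (sec (ap2 τ x) n) ≤ b)) (by fun_prop))
      refine ⟨b, fun n x hx => lt_of_le_of_lt ?_ (hb1 n)⟩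
      exact lst_spec (M := M) (P := fun b : W M => ∀ x : Re M,
        (∀ i, i < sc n → WF (sec x i) ∧ nrm (sec x i) ≤ d) → nrm (sec (ap2 τ x) n) ≤ b)
        (by fun_prop) (hb d n) x hx
    let F : Fn M := lam (fun d => lst M (fun b : W M => ∀ (n : N M) (x : Re M),
        (∀ i, i < sc n → WF (sec x i) ∧ nrm (sec x i) ≤ d) → nrm (sec (ap2 τ x) n) < b)) (by fun_prop)
    have hF : ∀ d (n : N M) (x : Re M),
        (∀ i, i < sc n → WF (sec x i) ∧ nrm (sec x i) ≤ d) → nrm (sec (ap2 τ x) n) < F d :=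
      fun d => lst_spec (M := M) (P := fun b : W M => ∀ (n : N M) (x : Re M),
        (∀ i, i < sc n → WF (sec x i) ∧ nrm (sec x i) ≤ d) → nrm (sec (ap2 τ x) n) < b)
        (by fun_prop) (hb' d)
    refine ⟨F, fun a ha d hd hR => ?_⟩
    obtain ⟨x, hx1, hx2, hx3⟩ := exists_cofinal hd
    have hy1 : ∀ n, WF (sec (ap2 τ x) n) := fun n => hw x n fun i _ => (hx1 i).1
    have hy2 : ∀ n, nrm (sec (ap2 τ x) n) < a := by
      intro n
      obtain ⟨d, hd, hd'⟩ := W.exists_max (f := fun i => nrm (sec x i)) (by fun_prop) ha.1 (sc n)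
        fun k _ => (hx1 k).2
      exact (hF d n x fun i hi => ⟨(hx1 i).1, hd' i hi⟩).trans (ha.2 d hd)
    have hs : ssup x (ap2 τ x) = a := ssup_eq (fun n => ⟨(hx1 n).2, hy2 n⟩) fun c hc => by
      obtain ⟨n, hn⟩ := hx2 c hc
      exact ⟨n, Or.inl hn⟩
    refine hτ' x (Or.inr ⟨fun n => ⟨(hx1 n).1, hy1 n⟩, ?_⟩)
    rw [hs, hx3]
    exact hR

/-- the club dichotomy -/
theorem SM {R : W M → W M → Prop} (hR : IF M (fun q : W M × W M => R q.1 q.2))
    (hmono : ∀ d e a, d ≤ e → R d a → R e a) :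
    (∃ d, Ev (fun a => R d a)) ∨ Ev (fun a => ∀ d, d < a → ¬ R d a) :=
  SM' ⟨_, hR⟩ hmono

theorem Ev.dich {Q : W M → Prop} (hQ : IF M Q) : Ev Q ∨ Ev (fun a => ¬ Q a) := by
  rcases SM' (lam (fun p : W M × W M => Q p.2) (by fun_prop)) (fun _ _ _ _ h => h) with ⟨_, h⟩ | ⟨f, hf⟩
  · exact Or.inl h
  · refine Or.inr ⟨f, fun a ha => ?_⟩
    obtain ⟨b, hb⟩ := ha.1
    exact hf a ha b hb

theorem Ev.not_iff {Q : W M → Prop} (hQ : IF M Q) : ¬ Ev Q ↔ Ev (fun a => ¬ Q a) := by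
  constructor
  · intro h
    exact (Ev.dich hQ).resolve_left h
  · intro h h'
    obtain ⟨a, _, ha, ha'⟩ := (h.and h').exists_gt (w0 M)
    exact ha ha'

/-- normality -/
theorem Ev.normal {Q : W M → W M → Prop} (hQ : IF M (fun q : W M × W M => Q q.1 q.2))
    (h : ∀ c, Ev (Q c)) : Ev (fun a => ∀ c, c < a → Q c a) := by
  have h1 : IF M (fun q : (W M × W M) × W M => Q q.2 q.1.2) :=
    hQ.comp (g := fun q : (W M × W M) × W M => (q.2, q.1.2)) (by fun_prop)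
  have h2 : IF M (fun q : W M × W M => ∃ c, c ≤ q.1 ∧ ¬ Q c q.2) := by fun_prop
  rcases SM' ⟨_, h2⟩ (fun d d' a hd ⟨c, hc, hc'⟩ => ⟨c, hc.trans hd, hc'⟩) with ⟨d, h3⟩ | h3
  · exfalso
    have h4 : Ev (fun a => ∃ c, c ≤ d ∧ ¬ Q c a) := h3
    have h5 := Ev.all_below hQ d fun c _ => h c
    obtain ⟨a, _, ⟨c, hc, hc'⟩, h6⟩ := (h4.and h5).exists_gt (w0 M)
    exact hc' (h6 c hc)
  · refine h3.mono fun a ha c hc => ?_
    by_contra h7
    exact ha c hc ⟨c, le_rfl, h7⟩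

theorem Ev.press {f : W M → W M} (hf : IF M f) (h : Ev (fun a => f a < a)) :
    ∃ c, Ev (fun a => f a = c) := by
  by_contra hcon
  push Not at hcon
  have h1 : ∀ c, Ev (fun a => ¬ f a = c) := fun c =>
    (Ev.dich (Q := fun a => f a = c) (by fun_prop)).resolve_left (hcon c)
  have h2 := Ev.normal (Q := fun c a => ¬ f a = c) (by fun_prop) h1
  obtain ⟨a, _, h3, h4⟩ := (h.and h2).exists_gt (w0 M)
  exact h4 _ h3 rfl

/-- a partition into countably many pieces -/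
theorem Ev.exists_nat {Q : N M → W M → Prop} (hQ : IF M (fun q : N M × W M => Q q.1 q.2))
    (h : Ev (fun a => ∃ n, Q n a)) : ∃ n, Ev (Q n) := by
  by_contra hcon
  push Not at hcon
  have h0 : ∀ n, IF M (Q n) := fun n => hQ.comp (g := fun a : W M => (n, a)) (by fun_prop)
  have h1 : ∀ n, Ev (fun a => ¬ Q n a) := fun n => (Ev.dich (h0 n)).resolve_left (hcon n)
  have h2 := Ev.all_nat (Q := fun n a => ¬ Q n a) (by fun_prop) h1
  obtain ⟨a, _, ⟨n, hn⟩, h4⟩ := (h.and h2).exists_gt (w0 M)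
  exact h4 n hn

end Pool.Agent.Helper48.MG
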