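import Pool.Agent.Helper95.MG.Top

/-!
# Block A, module 2: `Σ¹₁` predicates; countable choice for reals
-/

set_option autoImplicit false

namespace Pool.Agent.Helper48.MG

variable {M : Type} [ZFM M]

/-- countable choice for reals, a consequence of determinacy -/
theorem acw [AD M] (A : IFun M (N M × Re M) Prop) (h : ∀ n, ∃ y, A (n, y)) :
    ∃ Y : IFun M (N M) (Re M), ∀ n, A (n, Y n) := by
  rcases AD.det (M := M) (lam (fun p : Re M × Re M => ¬ A (p.1 0, p.2)) (by fun_prop)) with ⟨σ, hσ⟩ | ⟨τ, hτ⟩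
  · exfalso
    obtain ⟨y, hy⟩ := h (σ 0)
    have h1 : ¬ A ((ap1 σ y) 0, y) := hσ y
    rw [ap1_apply, cd_zero] at h1
    exact h1 hy
  · refine ⟨lam (fun n => ap2 τ (lam (fun _ => n) (by fun_prop))) (by fun_prop), fun n => ?_⟩
    have h1 : ¬ ¬ A (n, ap2 τ (lam (fun _ => n) (by fun_prop))) := hτ (lam (fun _ => n) (by fun_prop))
    exact not_not.1 h1

/-- unary form: the predicate is given by an `IF` hypothesis -/
theorem acw' [AD M] {A : N M → Re M → Prop} (hA : IF M (fun q : N M × Re M => A q.1 q.2))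
    (h : ∀ n, ∃ y, A n y) : ∃ Y : IFun M (N M) (Re M), ∀ n, A n (Y n) :=
  acw ⟨_, hA⟩ h

variable {α β γ δ : Type} [Cl M α] [Cl M β] [Cl M γ] [Cl M δ] [Tp M α] [Tp M β] [Tp M γ] [Tp M δ]

/-- `x` is a code of the `Σ¹₁` predicate `P` -/
def SigC (M : Type) [ZFM M] {α : Type} [Cl M α] [Tp M α] (x : Re M) (P : α → Prop) : Prop :=
  ∀ a, P a ↔ ∃ z : Re M, ∀ m, x (pr (cd (Tp.enc a) m) (cd z m)) = 0

/-- `Σ¹₁` predicates -/
def Sig (M : Type) [ZFM M] {α : Type} [Cl M α] [Tp M α] (P : α → Prop) : Prop :=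
  ∃ x : Re M, SigC M x P

theorem Sig.iff {P : α → Prop} (h : Sig M P) : IF M P := by
  obtain ⟨x, hx⟩ := h
  have h1 : IF M (fun a : α => ∃ z : Re M, ∀ m, x (pr (cd (Tp.enc a) m) (cd z m)) = 0) := by
    fun_prop
  exact h1.congrP hx

theorem Sig.congr {P Q : α → Prop} (h : Sig M P) (hPQ : ∀ a, Q a ↔ P a) : Sig M Q := by
  obtain ⟨x, hx⟩ := h
  exact ⟨x, fun a => (hPQ a).trans (hx a)⟩

/-- Main introduction rule. (Code: `c = pr (cd (enc a) m) (cd z m)` is accepted iff some `a'`, `z'`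
with the same `c` satisfy `Q ((a', z'), n)` for all `n < m`.) -/
theorem Sig.intro {P : α → Prop} {Q : (α × Re M) × N M → Prop} (hQ : Ct M Q)
    (h : ∀ a, P a ↔ ∃ z, ∀ n, Q ((a, z), n)) : Sig M P := by
  classical
  have hQ0 := hQ.iff
  have h1 : IF M (fun c : N M => if ∃ (a : α) (z : Re M) (m : N M),
      c = pr (cd (Tp.enc a) m) (cd z m) ∧ ∀ n, n < m → Q ((a, z), n) then (0 : N M) else sc 0) := by
    have h2 : IF M (fun r : (((N M × α) × Re M) × N M) × N M => Q ((r.1.1.1.2, r.1.1.2), r.2)) :=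
      hQ0.comp (g := fun r : (((N M × α) × Re M) × N M) × N M => ((r.1.1.1.2, r.1.1.2), r.2))
        (by fun_prop)
    fun_prop
  have key : ∀ (a : α) (z : Re M) (m : N M), (⟨_, h1⟩ : Re M) (pr (cd (Tp.enc a) m) (cd z m)) = 0 ↔
      ∃ (a' : α) (z' : Re M), agr m a a' ∧ cd z m = cd z' m ∧ ∀ n, n < m → Q ((a', z'), n) := by
    intro a z m
    show (if ∃ (a' : α) (z' : Re M) (m' : N M),
      pr (cd (Tp.enc a) m) (cd z m) = pr (cd (Tp.enc a') m') (cd z' m') ∧
        ∀ n, n < m' → Q ((a', z'), n) then (0 : N M) else sc 0) = 0 ↔ _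
    constructor
    · intro h
      split_ifs at h with h'
      · obtain ⟨a', z', m', h2, h3⟩ := h'
        obtain ⟨h4, h5⟩ := pr_inj h2
        obtain ⟨h6, _⟩ := cd_eq_iff.1 h5
        subst h6
        exact ⟨a', z', h4, h5, h3⟩
      · exact (N.sc_ne_zero _ h).elim
    · rintro ⟨a', z', h2, h3, h4⟩
      rw [if_pos]
      exact ⟨a', z', m, congrArg₂ pr h2 h3, h4⟩
  refine ⟨⟨_, h1⟩, fun a => (h a).trans ?_⟩
  constructor
  · rintro ⟨z, hz⟩
    exact ⟨z, fun m => (key a z m).2 ⟨a, z, rfl, rfl, fun n _ => hz n⟩⟩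
  · rintro ⟨z, hz⟩
    refine ⟨z, fun n => ?_⟩
    obtain ⟨k, hk⟩ := hQ.eqOn ((a, z), n)
    obtain ⟨a', z', h2, h3, h4⟩ := (key a z (max k (sc n))).1 (hz _)
    have h5 := h4 n ((N.lt_sc_self n).trans_le (le_max_right _ _))
    have h6 : agr k ((a, z), n) ((a', z'), n) :=
      agr_prod.2 ⟨agr_prod.2 ⟨h2.anti (le_max_left _ _),
        (show agr (max k (sc n)) z z' from h3).anti (le_max_left _ _)⟩, rfl⟩
    rw [hk _ h6]
    exact h5

/-- Main elimination rule. -/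
theorem Sig.elim {P : α → Prop} (h : Sig M P) : ∃ Q : (α × Re M) × N M → Prop, Ct M Q ∧
    ∀ a, P a ↔ ∃ z, ∀ n, Q ((a, z), n) := by
  obtain ⟨x, hx⟩ := h
  exact ⟨fun q => x (pr (cd (Tp.enc q.1.1) q.2) (cd q.1.2 q.2)) = 0, by fun_prop, hx⟩

theorem Sig.ct {P : α → Prop} (h : Ct M P) : Sig M P :=
  Sig.intro (Q := fun q => P q.1.1) (h.comp (by fun_prop)) fun a =>
    ⟨fun h => ⟨lam (fun _ => 0) (by fun_prop), fun _ => h⟩, fun ⟨_, h⟩ => h 0⟩

theorem Sig.comp {P : β → Prop} {f : α → β} (h : Sig M P) (hf : Ct M f) :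
    Sig M (fun a => P (f a)) := by
  obtain ⟨Q, hQ, hPQ⟩ := h.elim
  exact Sig.intro (Q := fun q => Q ((f q.1.1, q.1.2), q.2)) (hQ.comp (by fun_prop))
    fun a => hPQ (f a)

/-- closed predicates -/
theorem Sig.closed {Q : α × N M → Prop} (hQ : Ct M Q) : Sig M (fun a => ∀ n, Q (a, n)) :=
  Sig.intro (Q := fun q => Q (q.1.1, q.2)) (hQ.comp (by fun_prop)) fun a =>
    ⟨fun h => ⟨lam (fun _ => 0) (by fun_prop), h⟩, fun ⟨_, h⟩ => h⟩

theorem Sig.and {P Q : α → Prop} (hP : Sig M P) (hQ : Sig M Q) : Sig M (fun a => P a ∧ Q a) := by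
  obtain ⟨P', hP', hP⟩ := hP.elim
  obtain ⟨Q', hQ', hQ⟩ := hQ.elim
  refine Sig.intro (Q := fun q => P' ((q.1.1, sec q.1.2 0), q.2) ∧
    Q' ((q.1.1, sec q.1.2 (sc 0)), q.2)) ?_ fun a => ?_
  · exact (hP'.comp (by fun_prop)).and (hQ'.comp (by fun_prop))
  · rw [hP, hQ]
    constructor
    · rintro ⟨⟨z, hz⟩, ⟨z', hz'⟩⟩
      obtain ⟨w, hw, hw'⟩ := exists_join2 z z'
      refine ⟨w, fun n => ?_⟩
      show P' ((a, sec w 0), n) ∧ Q' ((a, sec w (sc 0)), n)
      rw [hw, hw']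
      exact ⟨hz n, hz' n⟩
    · rintro ⟨w, hw⟩
      exact ⟨⟨sec w 0, fun n => (hw n).1⟩, ⟨sec w (sc 0), fun n => (hw n).2⟩⟩

theorem Sig.exR {P : α → Re M → Prop} (h : Sig M (fun q : α × Re M => P q.1 q.2)) :
    Sig M (fun a => ∃ x, P a x) := by
  obtain ⟨P', hP', hP⟩ := h.elim
  refine Sig.intro (Q := fun q => P' (((q.1.1, sec q.1.2 0), sec q.1.2 (sc 0)), q.2)) ?_ fun a => ?_
  · exact hP'.comp (by fun_prop)
  · constructor
    · rintro ⟨x, hx⟩
      obtain ⟨z, hz⟩ := (hP (a, x)).1 hx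
      obtain ⟨w, hw, hw'⟩ := exists_join2 x z
      refine ⟨w, fun n => ?_⟩
      show P' (((a, sec w 0), sec w (sc 0)), n)
      rw [hw, hw']
      exact hz n
    · rintro ⟨w, hw⟩
      exact ⟨sec w 0, (hP (a, sec w 0)).2 ⟨sec w (sc 0), hw⟩⟩

/-- existential quantification over any topological type -/
theorem Sig.ex {P : α → β → Prop} (h : Sig M (fun q : α × β => P q.1 q.2)) :
    Sig M (fun a => ∃ b, P a b) := by
  have h1 : Sig M (fun q : α × Re M => P q.1 (Tp.dec q.2)) :=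
    h.comp (f := fun q : α × Re M => (q.1, (Tp.dec q.2 : β))) (by fun_prop)
  refine (Sig.exR (P := fun a x => P a (Tp.dec x)) h1).congr fun a => ?_
  constructor
  · rintro ⟨b, hb⟩
    exact ⟨Tp.enc b, by rw [Tp.dec_enc]; exact hb⟩
  · rintro ⟨x, hx⟩
    exact ⟨_, hx⟩

theorem Sig.imp_ct {P Q : α → Prop} (hP : Ct M P) (hQ : Sig M Q) : Sig M (fun a => P a → Q a) := by
  obtain ⟨Q', hQ', hQ⟩ := hQ.elim
  refine Sig.intro (Q := fun q => P q.1.1 → Q' q) ?_ fun a => ?_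
  · exact (hP.comp (f := P) (g := fun q : (α × Re M) × N M => q.1.1) (by fun_prop)).imp hQ'
  · constructor
    · intro h
      by_cases hp : P a
      · obtain ⟨z, hz⟩ := (hQ a).1 (h hp)
        exact ⟨z, fun n _ => hz n⟩
      · exact ⟨lam (fun _ => 0) (by fun_prop), fun n h => (hp h).elim⟩
    · rintro ⟨z, hz⟩ hp
      exact (hQ a).2 ⟨z, fun n => hz n hp⟩

theorem Sig.or {P Q : α → Prop} (hP : Sig M P) (hQ : Sig M Q) : Sig M (fun a => P a ∨ Q a) := by
  have h1 : Sig M (fun q : α × N M => (q.2 = 0 → P q.1) ∧ (¬ q.2 = 0 → Q q.1)) :=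
    (Sig.imp_ct (by fun_prop) (hP.comp (by fun_prop))).and
      (Sig.imp_ct (by fun_prop) (hQ.comp (by fun_prop)))
  refine (Sig.ex (P := fun (a : α) (n : N M) => (n = 0 → P a) ∧ (¬ n = 0 → Q a)) h1).congr
    fun a => ?_
  constructor
  · rintro (h | h)
    · exact ⟨0, fun _ => h, fun h' => (h' rfl).elim⟩
    · exact ⟨sc 0, fun h' => (N.sc_ne_zero _ h').elim, fun _ => h⟩
  · rintro ⟨n, h, h'⟩
    by_cases hn : n = 0
    · exact Or.inl (h hn)
    · exact Or.inr (h' hn)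

variable [AD M]

theorem Sig.allN {P : α → N M → Prop} (h : Sig M (fun q : α × N M => P q.1 q.2)) :
    Sig M (fun a => ∀ n, P a n) := by
  obtain ⟨P', hP', hP⟩ := h.elim
  have hP0 := hP'.iff
  refine Sig.intro (Q := fun q => P' (((q.1.1, u1 q.2), sec q.1.2 (u1 q.2)), u2 q.2)) ?_ fun a => ?_
  · exact hP'.comp (by fun_prop)
  · constructor
    · intro h
      obtain ⟨Y, hY⟩ := acw' (M := M) (A := fun n z => ∀ k, P' (((a, n), z), k)) (by
        have h2 : IF M (fun q : (N M × Re M) × N M => P' (((a, q.1.1), q.1.2), q.2)) :=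
          hP0.comp (g := fun q : (N M × Re M) × N M => (((a, q.1.1), q.1.2), q.2)) (by fun_prop)
        fun_prop) (fun n => (hP (a, n)).1 (h n))
      obtain ⟨w, hw⟩ := exists_join Y
      refine ⟨w, fun n => ?_⟩
      show P' (((a, u1 n), sec w (u1 n)), u2 n)
      rw [hw]
      exact hY _ _
    · rintro ⟨w, hw⟩ n
      refine (hP (a, n)).2 ⟨sec w n, fun k => ?_⟩
      have := hw (pr n k)
      simpa using this

/-- A countable family of `Σ¹₁` predicates is `Σ¹₁` on the product. -/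
theorem Sig.unif {P : N M → α → Prop} (hP : IF M (fun q : N M × α => P q.1 q.2))
    (h : ∀ n, Sig M (P n)) : Sig M (fun q : α × N M => P q.2 q.1) := by
  obtain ⟨Y, hY⟩ := acw' (M := M) (A := fun n x => SigC M x (P n)) (by
    have h2 : IF M (fun q : (N M × Re M) × α => P q.1.1 q.2) :=
      hP.comp (g := fun q : (N M × Re M) × α => (q.1.1, q.2)) (by fun_prop)
    unfold SigC
    fun_prop) h
  exact Sig.intro (Q := fun q => (Y q.1.1.2) (pr (cd (Tp.enc q.1.1.1) q.2) (cd q.1.2 q.2)) = 0)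
    (by fun_prop) fun q => hY q.2 q.1

theorem Sig.iUnion {P : N M → α → Prop} (hP : IF M (fun q : N M × α => P q.1 q.2))
    (h : ∀ n, Sig M (P n)) : Sig M (fun a => ∃ n, P n a) :=
  Sig.ex (P := fun a n => P n a) (Sig.unif hP h)

theorem Sig.iInter {P : N M → α → Prop} (hP : IF M (fun q : N M × α => P q.1 q.2))
    (h : ∀ n, Sig M (P n)) : Sig M (fun a => ∀ n, P n a) :=
  Sig.allN (P := fun a n => P n a) (Sig.unif hP h)

/-- intersections of finitely many -/
theorem Sig.ball {P : N M → α → Prop} (hP : IF M (fun q : N M × α => P q.1 q.2)) (n : N M)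
    (h : ∀ k, k < n → Sig M (P k)) : Sig M (fun a => ∀ k, k < n → P k a) :=
  Sig.iInter (P := fun k a => k < n → P k a) (by fun_prop) fun k => by
    by_cases hk : k < n
    · exact (h k hk).congr fun a => ⟨fun h => h hk, fun h _ => h⟩
    · exact (Sig.ct (Ct.const True)).congr fun a => ⟨fun _ => trivial, fun _ h => (hk h).elim⟩

/-- unions over countable ordinals -/
theorem Sig.exW {P : W M → α → Prop} (hP : IF M (fun q : W M × α => P q.1 q.2)) (b : W M)
    (h : ∀ c, c ≤ b → Sig M (P c)) : Sig M (fun a => ∃ c, c ≤ b ∧ P c a) := by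
  obtain ⟨f, hf⟩ := exists_cov_W b
  refine (Sig.iUnion (P := fun n a => f n ≤ b ∧ P (f n) a) ?_ fun n => ?_).congr fun a => ?_
  · have h2 : IF M (fun q : N M × α => P (f q.1) q.2) :=
      hP.comp (g := fun q : N M × α => (f q.1, q.2)) (by fun_prop)
    fun_prop
  · by_cases hk : f n ≤ b
    · exact (h _ hk).congr fun a => ⟨fun h => h.2, fun h => ⟨hk, h⟩⟩
    · exact (Sig.ct (Ct.const False)).congr fun a => ⟨fun h => (hk h.1).elim, fun h => h.elim⟩
  · constructor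
    · rintro ⟨c, hc, h⟩
      obtain ⟨n, rfl⟩ := hf c hc
      exact ⟨n, hc, h⟩
    · rintro ⟨n, h⟩
      exact ⟨_, h⟩

theorem Sig.allW {P : W M → α → Prop} (hP : IF M (fun q : W M × α => P q.1 q.2)) (b : W M)
    (h : ∀ c, c ≤ b → Sig M (P c)) : Sig M (fun a => ∀ c, c ≤ b → P c a) := by
  obtain ⟨f, hf⟩ := exists_cov_W b
  refine (Sig.iInter (P := fun n a => f n ≤ b → P (f n) a) ?_ fun n => ?_).congr fun a => ?_
  · have h2 : IF M (fun q : N M × α => P (f q.1) q.2) :=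
      hP.comp (g := fun q : N M × α => (f q.1, q.2)) (by fun_prop)
    fun_prop
  · by_cases hk : f n ≤ b
    · exact (h _ hk).congr fun a => ⟨fun h => h hk, fun h _ => h⟩
    · exact (Sig.ct (Ct.const True)).congr fun a => ⟨fun h => trivial, fun _ h => (hk h).elim⟩
  · constructor
    · intro h n; exact h _
    · intro h c hc
      obtain ⟨n, rfl⟩ := hf c hc
      exact h n hc

theorem Sig.exW' {P : W M → α → Prop} (hP : IF M (fun q : W M × α => P q.1 q.2)) (b : W M)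
    (h : ∀ c, c < b → Sig M (P c)) : Sig M (fun a => ∃ c, c < b ∧ P c a) := by
  refine (Sig.exW (P := fun c a => c < b ∧ P c a) (by fun_prop) b fun c _ => ?_).congr fun a => ?_
  · by_cases hk : c < b
    · exact (h _ hk).congr fun a => ⟨fun h => h.2, fun h => ⟨hk, h⟩⟩
    · exact (Sig.ct (Ct.const False)).congr fun a => ⟨fun h => (hk h.1).elim, fun h => h.elim⟩
  · exact ⟨fun ⟨c, h, h'⟩ => ⟨c, h.le, h, h'⟩, fun ⟨c, _, h, h'⟩ => ⟨c, h, h'⟩⟩

theorem Sig.allW' {P : W M → α → Prop} (hP : IF M (fun q : W M × α => P q.1 q.2)) (b : W M)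
    (h : ∀ c, c < b → Sig M (P c)) : Sig M (fun a => ∀ c, c < b → P c a) := by
  refine (Sig.allW (P := fun c a => c < b → P c a) (by fun_prop) b fun c _ => ?_).congr fun a => ?_
  · by_cases hk : c < b
    · exact (h _ hk).congr fun a => ⟨fun h => h hk, fun h _ => h⟩
    · exact (Sig.ct (Ct.const True)).congr fun a => ⟨fun h => trivial, fun _ h => (hk h).elim⟩
  · exact ⟨fun h c _ hc => h c hc, fun h c hc => h c hc.le hc⟩

end Pool.Agent.Helper48.MG
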