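import Pool.Agent.Helper48.MG.Core

/-!
# Block A, module 1: topological types and continuous functions

`Tp M α`: the elements of `α` are coded by reals (`enc`), with a continuous left inverse `dec`.
`Ct M f`: the function `f` is internal and continuous; `fun_prop` proves `Ct M f`.
-/

set_option autoImplicit false

namespace Pool.Agent.Helper48.MG

variable {M : Type} [ZFM M]

/-! ### preliminaries on `N` -/

theorem N.exists_max {f : N M → N M} (hf : IF M f) (n : N M) : ∃ m, ∀ k, k < n → f k ≤ m := by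
  refine N.ind (fun n => ∃ m, ∀ k, k < n → f k ≤ m) (by fun_prop) ?_ ?_ n
  · exact ⟨0, fun k hk => (N.not_lt_zero k hk).elim⟩
  · rintro n ⟨m, hm⟩
    refine ⟨max m (f n), fun k hk => ?_⟩
    rcases lt_or_eq_of_le (N.lt_sc.1 hk) with h | rfl
    · exact (hm k h).trans (le_max_left _ _)
    · exact le_max_right _ _

/-- the two components of a pair of natural numbers -/
noncomputable def u1 (n : N M) : N M := lst M (fun a => ∃ b, pr a b = n)
noncomputable def u2 (n : N M) : N M := lst M (fun b => ∃ a, pr a b = n)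

section
variable {α : Type} [Cl M α]
@[fun_prop] theorem IF.u1 {f : α → N M} (hf : IF M f) : IF M (fun x => u1 (f x)) := by
  unfold MG.u1; fun_prop
@[fun_prop] theorem IF.u2 {f : α → N M} (hf : IF M f) : IF M (fun x => u2 (f x)) := by
  unfold MG.u2; fun_prop
end

@[simp] theorem u1_pr (a b : N M) : u1 (pr a b) = a := by
  obtain ⟨c, hc⟩ := lst_spec (M := M) (P := fun x => ∃ c, pr x c = pr a b) (by fun_prop) ⟨a, b, rfl⟩
  exact (pr_inj hc).1

@[simp] theorem u2_pr (a b : N M) : u2 (pr a b) = b := by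
  obtain ⟨c, hc⟩ := lst_spec (M := M) (P := fun x => ∃ c, pr c x = pr a b) (by fun_prop) ⟨b, a, rfl⟩
  exact (pr_inj hc).2

theorem cd_eq {x y : Re M} {n : N M} : cd x n = cd y n ↔ ∀ k, k < n → x k = y k := by
  rw [cd_eq_iff]; simp

theorem cd_anti {x y : Re M} {m n : N M} (h : m ≤ n) (hn : cd x n = cd y n) : cd x m = cd y m :=
  cd_eq.2 fun k hk => cd_eq.1 hn k (hk.trans_le h)

/-- Topological types. -/
class Tp (M : Type) [ZFM M] (α : Type) [Cl M α] where
  enc : α → Re M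
  dec : Re M → α
  if_enc : IF M enc
  if_dec : IF M dec
  dec_enc : ∀ a, dec (enc a) = a
  ct_dec : ∀ (x : Re M) (m : N M), ∃ n : N M, ∀ y : Re M, cd x n = cd y n →
    cd (enc (dec x)) m = cd (enc (dec y)) m

variable {α β γ δ : Type} [Cl M α] [Cl M β] [Cl M γ] [Cl M δ]

@[fun_prop] theorem IF.enc [Tp M β] {f : α → β} (hf : IF M f) :
    IF M (fun a => (Tp.enc (f a) : Re M)) := (Tp.if_enc (M := M) (α := β)).comp hf

@[fun_prop] theorem IF.dec [Tp M β] {f : α → Re M} (hf : IF M f) :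
    IF M (fun a => (Tp.dec (f a) : β)) := (Tp.if_dec (M := M) (α := β)).comp hf

/-- `x` and `y` agree up to `n` -/
def agr [Tp M α] (n : N M) (x y : α) : Prop := cd (Tp.enc x) n = cd (Tp.enc y) n

@[fun_prop] theorem IF.agr [Tp M β] {h : α → N M} {f g : α → β} (hh : IF M h) (hf : IF M f)
    (hg : IF M g) : IF M (fun a => agr (h a) (f a) (g a)) := by
  unfold MG.agr; fun_prop

theorem agr.refl [Tp M α] (n : N M) (x : α) : agr n x x := rfl
theorem agr.symm [Tp M α] {n : N M} {x y : α} (h : agr n x y) : agr n y x := Eq.symm h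
theorem agr.trans [Tp M α] {n : N M} {x y z : α} (h : agr n x y) (h' : agr n y z) : agr n x z :=
  Eq.trans h h'
theorem agr.anti [Tp M α] {m n : N M} {x y : α} (hmn : m ≤ n) (h : agr n x y) : agr m x y :=
  cd_anti hmn h

noncomputable instance instTpRe : Tp M (Re M) where
  enc x := x
  dec x := x
  if_enc := by fun_prop
  if_dec := by fun_prop
  dec_enc _ := rfl
  ct_dec x m := ⟨m, fun y h => h⟩

theorem agr_re {n : N M} {x y : Re M} : agr n x y ↔ ∀ k, k < n → x k = y k := cd_eq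

noncomputable instance instTpN : Tp M (N M) where
  enc n := lam (fun _ => n) (by fun_prop)
  dec x := x 0
  if_enc := by fun_prop
  if_dec := by fun_prop
  dec_enc _ := rfl
  ct_dec x m := ⟨sc 0, fun y h => by
    rw [cd_eq] at h
    have h' : x 0 = y 0 := h 0 (N.zero_lt_sc 0)
    show cd (lam (fun _ => x 0) (by fun_prop)) m = cd (lam (fun _ => y 0) (by fun_prop)) m
    rw [h']⟩

open Classical in
/-- the real coding a proposition -/
noncomputable def encP (M : Type) [ZFM M] (p : Prop) : Re M := lam (fun _ => if p then 0 else sc 0) (by fun_prop)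

noncomputable instance instTpProp : Tp M Prop where
  enc p := encP M p
  dec x := x 0 = 0
  if_enc := by unfold encP; fun_prop
  if_dec := by fun_prop
  dec_enc p := by
    classical
    show ((if p then (0 : N M) else sc 0) = 0) = p
    by_cases hp : p
    · simp [hp]
    · simp [hp, N.sc_ne_zero]
  ct_dec x m := ⟨sc 0, fun y h => by
    rw [cd_eq] at h
    have h' : (x 0 = 0) = (y 0 = 0) := by rw [h 0 (N.zero_lt_sc 0)]
    show cd (encP M (x 0 = 0)) m = cd (encP M (y 0 = 0)) m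
    rw [h']⟩

noncomputable instance instTpProd [Tp M α] [Tp M β] : Tp M (α × β) where
  enc p := lam (fun n => pr ((Tp.enc p.1 : Re M) n) ((Tp.enc p.2 : Re M) n)) (by fun_prop)
  dec x := (Tp.dec (lam (fun n => u1 (x n)) (by fun_prop) : Re M), Tp.dec (lam (fun n => u2 (x n)) (by fun_prop) : Re M))
  if_enc := by fun_prop
  if_dec := by fun_prop
  dec_enc p := by
    obtain ⟨a, b⟩ := p
    refine Prod.ext ?_ ?_
    · show Tp.dec (lam (fun n => u1 (pr ((Tp.enc a : Re M) n) ((Tp.enc b : Re M) n))) (by fun_prop) : Re M) = a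
      have : (lam (fun n => u1 (pr ((Tp.enc a : Re M) n) ((Tp.enc b : Re M) n))) (by fun_prop) : Re M) =
          Tp.enc a := IFun.ext fun n => u1_pr _ _
      rw [this, Tp.dec_enc]
    · show Tp.dec (lam (fun n => u2 (pr ((Tp.enc a : Re M) n) ((Tp.enc b : Re M) n))) (by fun_prop) : Re M) = b
      have : (lam (fun n => u2 (pr ((Tp.enc a : Re M) n) ((Tp.enc b : Re M) n))) (by fun_prop) : Re M) =
          Tp.enc b := IFun.ext fun n => u2_pr _ _
      rw [this, Tp.dec_enc]
  ct_dec x m := by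
    obtain ⟨n1, h1⟩ := Tp.ct_dec (M := M) (α := α) (lam (fun n => u1 (x n)) (by fun_prop) : Re M) m
    obtain ⟨n2, h2⟩ := Tp.ct_dec (M := M) (α := β) (lam (fun n => u2 (x n)) (by fun_prop) : Re M) m
    refine ⟨max n1 n2, fun y hy => ?_⟩
    rw [cd_eq] at hy
    have e1 := h1 (lam (fun n => u1 (y n)) (by fun_prop) : Re M) (cd_eq.2 fun k hk => by
      show u1 (x k) = u1 (y k)
      rw [hy k (hk.trans_le (le_max_left _ _))])
    have e2 := h2 (lam (fun n => u2 (y n)) (by fun_prop) : Re M) (cd_eq.2 fun k hk => by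
      show u2 (x k) = u2 (y k)
      rw [hy k (hk.trans_le (le_max_right _ _))])
    rw [cd_eq] at e1 e2 ⊢
    intro k hk
    have f1 := e1 k hk
    have f2 := e2 k hk
    show pr _ _ = pr _ _
    exact congrArg₂ pr f1 f2

theorem agr_prod [Tp M α] [Tp M β] {n : N M} {x y : α × β} :
    agr n x y ↔ agr n x.1 y.1 ∧ agr n x.2 y.2 := by
  unfold agr
  rw [cd_eq, cd_eq, cd_eq]
  constructor
  · intro h
    exact ⟨fun k hk => (pr_inj (h k hk)).1, fun k hk => (pr_inj (h k hk)).2⟩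
  · rintro ⟨h1, h2⟩ k hk
    exact congrArg₂ pr (h1 k hk) (h2 k hk)

/-- discrete types -/
class Dsc (M : Type) [ZFM M] (α : Type) [Cl M α] [Tp M α] : Prop where
  eq : ∀ {x y : α}, agr (sc (0 : N M)) x y → x = y

instance : Dsc M (N M) := ⟨fun h => cd_eq.1 h 0 (N.zero_lt_sc 0)⟩

open Classical in
instance : Dsc M Prop := ⟨fun {x y} h => by
  have h1 : (if x then (0 : N M) else sc 0) = (if y then (0 : N M) else sc 0) :=
    cd_eq.1 h 0 (N.zero_lt_sc 0)
  by_cases hx : x <;> by_cases hy : y <;> simp [hx, hy] at h1 ⊢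
  · exact N.sc_ne_zero _ h1.symm
  · exact N.sc_ne_zero _ h1⟩

instance [Tp M α] [Tp M β] [Dsc M α] [Dsc M β] : Dsc M (α × β) :=
  ⟨fun h => Prod.ext (Dsc.eq (agr_prod.1 h).1) (Dsc.eq (agr_prod.1 h).2)⟩

/-! ### continuous functions -/

/-- internal continuous functions -/
@[fun_prop]
structure Ct (M : Type) [ZFM M] {α β : Type} [Cl M α] [Cl M β] [Tp M α] [Tp M β] (f : α → β) :
    Prop where
  iff : IF M f
  ct : ∀ (x : α) (m : N M), ∃ n : N M, ∀ y : α, agr n x y → agr m (f x) (f y)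

variable [Tp M α] [Tp M β] [Tp M γ] [Tp M δ]

@[fun_prop] theorem Ct.id : Ct M (fun a : α => a) := ⟨by fun_prop, fun x m => ⟨m, fun y h => h⟩⟩

@[fun_prop] theorem Ct.const (b : β) : Ct M (fun _ : α => b) :=
  ⟨by fun_prop, fun x m => ⟨m, fun y h => agr.refl _ _⟩⟩

@[fun_prop] theorem Ct.comp {f : β → γ} {g : α → β} (hf : Ct M f) (hg : Ct M g) :
    Ct M (fun a => f (g a)) :=
  ⟨hf.iff.comp hg.iff, fun x m => by
    obtain ⟨n, hn⟩ := hf.ct (g x) m
    obtain ⟨k, hk⟩ := hg.ct x n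
    exact ⟨k, fun y hy => hn _ (hk y hy)⟩⟩

@[fun_prop] theorem Ct.prodMk {f : α → β} {g : α → γ} (hf : Ct M f) (hg : Ct M g) :
    Ct M (fun a => (f a, g a)) :=
  ⟨hf.iff.prodMk hg.iff, fun x m => by
    obtain ⟨n, hn⟩ := hf.ct x m
    obtain ⟨k, hk⟩ := hg.ct x m
    exact ⟨max n k, fun y hy => agr_prod.2 ⟨hn _ (hy.anti (le_max_left _ _)),
      hk _ (hy.anti (le_max_right _ _))⟩⟩⟩

@[fun_prop] theorem Ct.fst : Ct M (Prod.fst : α × β → α) :=
  ⟨by fun_prop, fun x m => ⟨m, fun y h => (agr_prod.1 h).1⟩⟩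
@[fun_prop] theorem Ct.snd : Ct M (Prod.snd : α × β → β) :=
  ⟨by fun_prop, fun x m => ⟨m, fun y h => (agr_prod.1 h).2⟩⟩

@[fun_prop] theorem Ct.enc {f : β → α} (hf : Ct M f) : Ct M (fun a => (Tp.enc (f a) : Re M)) :=
  Ct.comp (f := fun a : α => (Tp.enc a : Re M)) ⟨by fun_prop, fun x m => ⟨m, fun y h => h⟩⟩ hf

@[fun_prop] theorem Ct.dec {f : β → Re M} (hf : Ct M f) : Ct M (fun a => (Tp.dec (f a) : α)) :=
  Ct.comp (f := fun x : Re M => (Tp.dec x : α))
    ⟨by fun_prop, fun x m => Tp.ct_dec (M := M) (α := α) x m⟩ hf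

/-- functions of a discrete argument -/
theorem Ct.dsc [Dsc M β] {h : β → γ} (hh : IF M h) : Ct M h :=
  ⟨hh, fun x m => ⟨sc 0, fun y hy => by rw [Dsc.eq hy]; exact agr.refl _ _⟩⟩

/-- functions with discrete values -/
theorem Ct.of_dsc [Dsc M β] {f : α → β} (hf : IF M f)
    (h : ∀ x, ∃ n : N M, ∀ y, agr n x y → f x = f y) : Ct M f :=
  ⟨hf, fun x m => by
    obtain ⟨n, hn⟩ := h x
    exact ⟨n, fun y hy => by rw [hn y hy]; exact agr.refl _ _⟩⟩

theorem Ct.eqOn [Dsc M β] {f : α → β} (hf : Ct M f) (x : α) :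
    ∃ n : N M, ∀ y, agr n x y → f x = f y := by
  obtain ⟨n, hn⟩ := hf.ct x (sc 0)
  exact ⟨n, fun y hy => Dsc.eq (hn y hy)⟩

/-- continuity of a function of `α × N` with discrete values -/
theorem Ct.of_nat [Dsc M β] {f : α × N M → β} (hf : IF M f)
    (h : ∀ x k, ∃ n : N M, ∀ y, agr n x y → f (x, k) = f (y, k)) : Ct M f :=
  Ct.of_dsc hf fun x => by
    obtain ⟨n, hn⟩ := h x.1 x.2
    refine ⟨max n (sc 0), fun y hy => ?_⟩
    rw [agr_prod] at hy
    have h1 : x.2 = y.2 := Dsc.eq (hy.2.anti (le_max_right _ _))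
    have h2 := hn y.1 (hy.1.anti (le_max_left _ _))
    obtain ⟨y1, y2⟩ := y
    obtain ⟨x1, x2⟩ := x
    have h3 : x2 = y2 := h1
    subst h3
    exact h2

theorem Ct.eval : Ct M (fun p : Re M × N M => p.1 p.2) :=
  Ct.of_nat (by fun_prop) fun x k => ⟨sc k, fun y hy => agr_re.1 hy k (N.lt_sc_self k)⟩

@[fun_prop] theorem Ct.app {f : α → Re M} {g : α → N M} (hf : Ct M f) (hg : Ct M g) :
    Ct M (fun a => (f a).toFun (g a)) :=
  Ct.comp (f := fun p : Re M × N M => p.1 p.2) (g := fun c => (f c, g c)) Ct.eval (hf.prodMk hg)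

@[fun_prop] theorem Ct.lam {f : α → N M → N M} {hf : ∀ c, IF M (f c)}
    (h : Ct M (fun q : α × N M => f q.1 q.2)) : Ct M (fun c => lam (f c) (hf c)) := by
  have h0 := h.iff
  refine ⟨by fun_prop, fun a m => ?_⟩
  have h1 : ∀ k, ∃ n : N M, ∀ b : α, MG.agr n a b → f a k = f b k := by
    intro k
    obtain ⟨n, hn⟩ := h.eqOn (a, k)
    exact ⟨n, fun b hb => hn (b, k) (agr_prod.2 ⟨hb, agr.refl _ _⟩)⟩
  have h2 : IF M (fun q : (N M × N M) × α => f a q.1.1 = f q.2 q.1.1) := by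
    have h3 : IF M (fun q : (N M × N M) × α => f q.2 q.1.1) :=
      h0.comp (g := fun q : (N M × N M) × α => (q.2, q.1.1)) (by fun_prop)
    have h4 := hf a
    fun_prop
  have h3 : IF M (fun q : N M × N M => ∀ b : α, MG.agr q.2 a b → f a q.1 = f b q.1) := by
    fun_prop
  have h4 : IF M (fun k => lst M (fun n : N M => ∀ b : α, MG.agr n a b → f a k = f b k)) := by
    fun_prop
  obtain ⟨n, hn⟩ := N.exists_max h4 m
  refine ⟨n, fun b hb => agr_re.2 fun k hk => ?_⟩
  have h5 := lst_spec (M := M) (P := fun n : N M => ∀ b : α, MG.agr n a b → f a k = f b k)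
    (h3.comp (g := fun n => (k, n)) (by fun_prop)) (h1 k)
  exact h5 b (hb.anti (hn k hk))

@[fun_prop] theorem Ct.not {p : α → Prop} (hp : Ct M p) : Ct M (fun a => ¬ p a) :=
  Ct.comp (f := fun p : Prop => ¬ p) (Ct.dsc (by fun_prop)) hp

@[fun_prop] theorem Ct.and {p q : α → Prop} (hp : Ct M p) (hq : Ct M q) :
    Ct M (fun a => p a ∧ q a) :=
  Ct.comp (f := fun p : Prop × Prop => p.1 ∧ p.2) (g := fun a => (p a, q a))
    (Ct.dsc (by fun_prop)) (hp.prodMk hq)

@[fun_prop] theorem Ct.or {p q : α → Prop} (hp : Ct M p) (hq : Ct M q) :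
    Ct M (fun a => p a ∨ q a) :=
  Ct.comp (f := fun p : Prop × Prop => p.1 ∨ p.2) (g := fun a => (p a, q a))
    (Ct.dsc (by fun_prop)) (hp.prodMk hq)

@[fun_prop] theorem Ct.imp {p q : α → Prop} (hp : Ct M p) (hq : Ct M q) :
    Ct M (fun a => p a → q a) :=
  Ct.comp (f := fun p : Prop × Prop => p.1 → p.2) (g := fun a => (p a, q a))
    (Ct.dsc (by fun_prop)) (hp.prodMk hq)

@[fun_prop] theorem Ct.iff' {p q : α → Prop} (hp : Ct M p) (hq : Ct M q) :
    Ct M (fun a => p a ↔ q a) :=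
  Ct.comp (f := fun p : Prop × Prop => (p.1 ↔ p.2)) (g := fun a => (p a, q a))
    (Ct.dsc (by fun_prop)) (hp.prodMk hq)

@[fun_prop] theorem Ct.eq [Dsc M β] {f g : α → β} (hf : Ct M f) (hg : Ct M g) :
    Ct M (fun a => f a = g a) :=
  Ct.comp (f := fun p : β × β => p.1 = p.2) (g := fun a => (f a, g a))
    (Ct.dsc (by fun_prop)) (hf.prodMk hg)

@[fun_prop] theorem Ct.lt {f g : α → N M} (hf : Ct M f) (hg : Ct M g) :
    Ct M (fun a => f a < g a) :=
  Ct.comp (f := fun p : N M × N M => p.1 < p.2) (g := fun a => (f a, g a))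
    (Ct.dsc (by fun_prop)) (hf.prodMk hg)

@[fun_prop] theorem Ct.le {f g : α → N M} (hf : Ct M f) (hg : Ct M g) :
    Ct M (fun a => f a ≤ g a) :=
  Ct.comp (f := fun p : N M × N M => p.1 ≤ p.2) (g := fun a => (f a, g a))
    (Ct.dsc (by fun_prop)) (hf.prodMk hg)

@[fun_prop] theorem Ct.sc {f : α → N M} (hf : Ct M f) : Ct M (fun a => sc (f a)) :=
  Ct.comp (f := fun n : N M => MG.sc n) (Ct.dsc (by fun_prop)) hf

@[fun_prop] theorem Ct.pr {f g : α → N M} (hf : Ct M f) (hg : Ct M g) :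
    Ct M (fun a => pr (f a) (g a)) :=
  Ct.comp (f := fun p : N M × N M => MG.pr p.1 p.2) (g := fun a => (f a, g a))
    (Ct.dsc (by fun_prop)) (hf.prodMk hg)

@[fun_prop] theorem Ct.u1 {f : α → N M} (hf : Ct M f) : Ct M (fun a => u1 (f a)) :=
  Ct.comp (f := fun n : N M => MG.u1 n) (Ct.dsc (by fun_prop)) hf

@[fun_prop] theorem Ct.u2 {f : α → N M} (hf : Ct M f) : Ct M (fun a => u2 (f a)) :=
  Ct.comp (f := fun n : N M => MG.u2 n) (Ct.dsc (by fun_prop)) hf

@[fun_prop] theorem Ct.cd {f : α → Re M} {g : α → N M} (hf : Ct M f) (hg : Ct M g) :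
    Ct M (fun a => cd (f a) (g a)) :=
  Ct.comp (f := fun p : Re M × N M => MG.cd p.1 p.2) (g := fun a => (f a, g a))
    (Ct.of_nat (by fun_prop) fun x k => ⟨k, fun y hy => hy⟩) (hf.prodMk hg)

/-- internal functions of natural numbers -/
@[fun_prop] theorem Ct.appD [Dsc M β] [Ob M β] {h : IFun M β γ} {f : α → β} (hf : Ct M f) :
    Ct M (fun a => h.toFun (f a)) :=
  Ct.comp (f := fun n : β => h.toFun n) (Ct.dsc (by fun_prop)) hf

@[fun_prop] theorem Ct.ite {p : α → Prop} {f g : α → β} [∀ a, Decidable (p a)] (hp : Ct M p)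
    (hf : Ct M f) (hg : Ct M g) : Ct M (fun a => if p a then f a else g a) := by
  have h1 := hp.iff
  have h2 := hf.iff
  have h3 := hg.iff
  refine ⟨by fun_prop, fun x m => ?_⟩
  obtain ⟨n, hn⟩ := hp.eqOn x
  obtain ⟨k, hk⟩ := hf.ct x m
  obtain ⟨l, hl⟩ := hg.ct x m
  refine ⟨max n (max k l), fun y hy => ?_⟩
  have e1 := hn y (hy.anti (le_max_left _ _))
  have e2 := hk y (hy.anti ((le_max_left _ _).trans (le_max_right _ _)))
  have e3 := hl y (hy.anti ((le_max_right _ _).trans (le_max_right _ _)))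
  by_cases h : p x
  · have h' : p y := by rw [← e1]; exact h
    rw [if_pos h, if_pos h']
    exact e2
  · have h' : ¬ p y := by rw [← e1]; exact h
    rw [if_neg h, if_neg h']
    exact e3

@[fun_prop] theorem Ct.sec {f : α → Re M} {g : α → N M} (hf : Ct M f) (hg : Ct M g) :
    Ct M (fun a => sec (f a) (g a)) := by
  unfold MG.sec; fun_prop

@[fun_prop] theorem Ct.ap1 {f g : α → Re M} (hf : Ct M f) (hg : Ct M g) :
    Ct M (fun a => ap1 (f a) (g a)) := by
  unfold MG.ap1; fun_prop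

@[fun_prop] theorem Ct.ap2 {f g : α → Re M} (hf : Ct M f) (hg : Ct M g) :
    Ct M (fun a => ap2 (f a) (g a)) := by
  unfold MG.ap2; fun_prop

/-- the relation coded by a real -/
@[fun_prop] theorem Ct.rel {f : α → Re M} {g : α → N M × N M} (hf : Ct M f) (hg : Ct M g) :
    Ct M (fun a => (rel (f a)).toFun (g a)) := by
  show Ct M (fun a => (f a).toFun (MG.pr (g a).1 (g a).2) = 0)
  fun_prop

/-- bounded quantifiers -/
@[fun_prop] theorem Ct.ball {p : α → N M → Prop} {g : α → N M}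
    (hp : Ct M (fun q : α × N M => p q.1 q.2)) (hg : Ct M g) :
    Ct M (fun a => ∀ k, k < g a → p a k) := by
  have h0 := hp.iff
  have h1 := hg.iff
  refine Ct.of_dsc ?_ fun a => ?_
  · have h2 : IF M (fun q : α × N M => q.2 < g q.1 → p q.1 q.2) := by fun_prop
    exact IF.all h2
  · have h3 : ∀ k, ∃ n : N M, ∀ b : α, MG.agr n a b → p a k = p b k := by
      intro k
      obtain ⟨n, hn⟩ := hp.eqOn (a, k)
      exact ⟨n, fun b hb => hn (b, k) (agr_prod.2 ⟨hb, agr.refl _ _⟩)⟩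
    have h2 : IF M (fun q : (N M × N M) × α => p a q.1.1 = p q.2 q.1.1) := by
      have h3 : IF M (fun q : (N M × N M) × α => p q.2 q.1.1) :=
        h0.comp (g := fun q : (N M × N M) × α => (q.2, q.1.1)) (by fun_prop)
      have h4 : IF M (fun q : (N M × N M) × α => p a q.1.1) :=
        h0.comp (g := fun q : (N M × N M) × α => (a, q.1.1)) (by fun_prop)
      fun_prop
    have h4 : IF M (fun q : N M × N M => ∀ b : α, MG.agr q.2 a b → p a q.1 = p b q.1) := by
      fun_prop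
    have h5 : IF M (fun k => lst M (fun n : N M => ∀ b : α, MG.agr n a b → p a k = p b k)) := by
      fun_prop
    obtain ⟨n, hn⟩ := N.exists_max h5 (g a)
    obtain ⟨m, hm⟩ := hg.eqOn a
    refine ⟨max n m, fun b hb => ?_⟩
    have e1 := hm b (hb.anti (le_max_right _ _))
    have e2 : ∀ k, k < g a → p a k = p b k := fun k hk => by
      have h6 := lst_spec (M := M) (P := fun n : N M => ∀ b : α, MG.agr n a b → p a k = p b k)
        (h4.comp (g := fun n => (k, n)) (by fun_prop)) (h3 k)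
      exact h6 b ((hb.anti (le_max_left _ _)).anti (hn k hk))
    rw [← e1]
    refine propext (forall_congr' fun k => ?_)
    constructor
    · intro h hk; rw [← e2 k hk]; exact h hk
    · intro h hk; rw [e2 k hk]; exact h hk

example (x : Re M) : Ct M (fun y : Re M × Re M => (¬ y.1 (y.2 (x (y.1 (y.2 0))))
  = (y.1 (x (y.2 0)))) ∧ (y.1 (y.2 0) = 0 → x (y.1 0) = x (y.2 0))) := by
  fun_prop

example : Ct M (fun y : Re M × Re M => ap1 (sec y.1 0) (lam (fun n : N M => y.1 (y.2 n)) (by fun_prop))) := by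
  fun_prop

example (x : Re M) : Ct M (fun q : (Re M × Re M) × N M =>
    x (pr (cd (Tp.enc q.1.1) q.2) (cd q.1.2 q.2)) = 0) := by
  fun_prop

example (x : Re M) : Ct M (fun q : (Re M × Re M) => rel q.1 (q.2 0, x (sc 0))) := by
  fun_prop

end Pool.Agent.Helper48.MG
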